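import Pool.Agent.N303.LS.Stm2

/-!
Project LS (helper303), leaf MUL: averages of translations are bounded on `L^p`.
-/

set_option autoImplicit false

namespace Pool.Agent.N558.LS

open Pool.Agent.N303.LS MeasureTheory
open scoped ENNReal FourierTransform RealInnerProductSpace SchwartzMap

variable {d : ℕ}

theorem fou_cont (g : 𝓢(E d, ℂ)) : Continuous (𝓕 (g : E d → ℂ)) := by
  rw [← SchwartzMap.fourier_coe]
  exact (𝓕 g).continuous

theorem fou_int (g : 𝓢(E d, ℂ)) : Integrable (𝓕 (g : E d → ℂ)) := by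
  rw [← SchwartzMap.fourier_coe]
  exact (𝓕 g).integrable

theorem inv_fou (g : 𝓢(E d, ℂ)) : inv (𝓕 (g : E d → ℂ)) = (g : E d → ℂ) := by
  have h := g.continuous.fourierInv_fourier_eq g.integrable (fou_int g)
  funext x
  have h1 : inv (𝓕 (g : E d → ℂ)) x = 𝓕⁻ (𝓕 (g : E d → ℂ)) x := by
    rw [Real.fourierInv_eq']
    unfold inv
    refine integral_congr_ae (Filter.Eventually.of_forall fun ξ => ?_)
    simp only [smul_eq_mul]
    rw [real_inner_comm]
  rw [h1, h]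

/-- the multiplier is an average of translations -/
theorem inv_mul_eq {Ω : Type} [MeasurableSpace Ω] (μ : Measure Ω) [SFinite μ] (y : Ω → E d)
    (κ : Ω → ℂ) (hy : Measurable y) (hκ : Integrable κ μ) (g : 𝓢(E d, ℂ)) (x : E d) :
    inv (fun ξ => (∫ q, Complex.exp (((-(2 * Real.pi * ⟪y q, ξ⟫) : ℝ) : ℂ) *
          Complex.I) * κ q ∂μ) * 𝓕 (g : E d → ℂ) ξ) x = ∫ q, κ q * g (x - y q) ∂μ := by
  unfold inv
  have e1 : ∀ ξ : E d, Complex.exp (((2 * Real.pi * ⟪x, ξ⟫ : ℝ) : ℂ) * Complex.I) *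
      ((∫ q, Complex.exp (((-(2 * Real.pi * ⟪y q, ξ⟫) : ℝ) : ℂ) *
          Complex.I) * κ q ∂μ) * 𝓕 (g : E d → ℂ) ξ) =
      ∫ q, Complex.exp (((2 * Real.pi * ⟪x - y q, ξ⟫ : ℝ) : ℂ) * Complex.I) *
        (𝓕 (g : E d → ℂ) ξ * κ q) ∂μ := by
    intro ξ
    rw [← integral_mul_const, ← integral_const_mul]
    refine integral_congr_ae (Filter.Eventually.of_forall fun q => ?_)
    simp only
    have e2 : Complex.exp (((2 * Real.pi * ⟪x - y q, ξ⟫ : ℝ) : ℂ) * Complex.I) =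
        Complex.exp (((2 * Real.pi * ⟪x, ξ⟫ : ℝ) : ℂ) * Complex.I) *
          Complex.exp (((-(2 * Real.pi * ⟪y q, ξ⟫) : ℝ) : ℂ) * Complex.I) := by
      rw [← Complex.exp_add, inner_sub_left]
      congr 1
      push_cast
      ring
    rw [e2]
    ring
  simp only [e1]
  have hint : Integrable (Function.uncurry fun (ξ : E d) (q : Ω) =>
      Complex.exp (((2 * Real.pi * ⟪x - y q, ξ⟫ : ℝ) : ℂ) * Complex.I) *
        (𝓕 (g : E d → ℂ) ξ * κ q)) (volume.prod μ) := by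
    have h1 : Integrable (fun z : E d × Ω => 𝓕 (g : E d → ℂ) z.1 * κ z.2) (volume.prod μ) :=
      (fou_int g).mul_prod hκ
    have hm : Measurable (fun z : E d × Ω =>
        Complex.exp (((2 * Real.pi * ⟪x - y z.2, z.1⟫ : ℝ) : ℂ) * Complex.I)) := by
      have h2 : Measurable (fun z : E d × Ω => ⟪x - y z.2, z.1⟫) := by
        have h3 : Measurable (fun z : E d × Ω => (x - y z.2, z.1)) :=
          (measurable_const.sub (hy.comp measurable_snd)).prodMk measurable_fst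
        exact (continuous_inner.measurable).comp h3
      fun_prop
    refine h1.mono (hm.aestronglyMeasurable.mul h1.aestronglyMeasurable)
      (Filter.Eventually.of_forall fun z => ?_)
    simp only [Function.uncurry]
    rw [norm_mul, Complex.norm_exp_ofReal_mul_I, one_mul]
  rw [integral_integral_swap hint]
  refine integral_congr_ae (Filter.Eventually.of_forall fun q => ?_)
  simp only
  have e3 : ∀ ξ : E d, Complex.exp (((2 * Real.pi * ⟪x - y q, ξ⟫ : ℝ) : ℂ) * Complex.I) *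
        (𝓕 (g : E d → ℂ) ξ * κ q) =
      (Complex.exp (((2 * Real.pi * ⟪x - y q, ξ⟫ : ℝ) : ℂ) * Complex.I) *
        𝓕 (g : E d → ℂ) ξ) * κ q := fun ξ => by ring
  simp only [e3]
  rw [integral_mul_const]
  have h4 := congrFun (inv_fou g) (x - y q)
  unfold inv at h4
  rw [h4, mul_comm]

/-- Jensen's inequality -/
theorem jensen {Ω : Type} [MeasurableSpace Ω] (μ : Measure Ω) (k : Ω → ℝ≥0∞) (hk : Measurable k)
    (f : Ω → ℂ) (hf : Measurable f) {p : ℝ} (hp : 1 ≤ p) :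
    (∫⁻ q, k q * ‖f q‖ₑ ∂μ) ^ p ≤ (∫⁻ q, k q ∂μ) ^ (p - 1) * ∫⁻ q, k q * ‖f q‖ₑ ^ p ∂μ := by
  have hp0 : 0 < p := by linarith
  have h := eLpNorm'_le_eLpNorm'_mul_rpow_measure_univ (μ := μ.withDensity k) (f := f)
    (p := 1) (q := p) one_pos hp hf.aestronglyMeasurable
  unfold eLpNorm' at h
  rw [withDensity_apply _ MeasurableSet.univ, Measure.restrict_univ] at h
  have e1 : ∫⁻ a, ‖f a‖ₑ ^ (1 : ℝ) ∂μ.withDensity k = ∫⁻ q, k q * ‖f q‖ₑ ∂μ := by
    rw [lintegral_withDensity_eq_lintegral_mul μ hk (by fun_prop)]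
    simp
  have e2 : ∫⁻ a, ‖f a‖ₑ ^ p ∂μ.withDensity k = ∫⁻ q, k q * ‖f q‖ₑ ^ p ∂μ := by
    rw [lintegral_withDensity_eq_lintegral_mul μ hk (by fun_prop)]
    simp
  rw [e1, e2, div_one, ENNReal.rpow_one] at h
  refine (ENNReal.rpow_le_rpow h hp0.le).trans (le_of_eq ?_)
  rw [ENNReal.mul_rpow_of_nonneg _ _ hp0.le, ← ENNReal.rpow_mul, ← ENNReal.rpow_mul,
    one_div_mul_cancel hp0.ne', ENNReal.rpow_one, mul_comm]
  congr 2
  field_simp

theorem t_mul : Pool.Agent.N303.LS.S_MUL := by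
  intro d Ω _ μ hμ y κ hy hκ g p hp
  have hp0 : 0 < p := by linarith
  have hgm : Measurable (g : E d → ℂ) := g.continuous.measurable
  have hk0 : AEMeasurable (fun q => ‖κ q‖ₑ) μ := hκ.1.enorm
  set k := hk0.mk with hkdef
  have hk : Measurable k := hk0.measurable_mk
  have hkae : (fun q => ‖κ q‖ₑ) =ᵐ[μ] k := hk0.ae_eq_mk
  have hA : ∫⁻ q, ‖κ q‖ₑ ∂μ = ∫⁻ q, k q ∂μ := lintegral_congr_ae hkae
  have hG : Measurable (fun z : E d × Ω => g (z.1 - y z.2)) :=
    hgm.comp (measurable_fst.sub (hy.comp measurable_snd))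
  -- the pointwise bound
  have h1 : ∀ x : E d, ‖inv (fun ξ => (∫ q, Complex.exp (((-(2 * Real.pi * ⟪y q, ξ⟫) : ℝ) : ℂ) *
          Complex.I) * κ q ∂μ) * 𝓕 (g : E d → ℂ) ξ) x‖ₑ ^ p ≤
      (∫⁻ q, k q ∂μ) ^ (p - 1) * ∫⁻ q, k q * ‖g (x - y q)‖ₑ ^ p ∂μ := by
    intro x
    rw [inv_mul_eq μ y κ hy hκ g x]
    have h2 : ‖∫ q, κ q * g (x - y q) ∂μ‖ₑ ≤ ∫⁻ q, k q * ‖g (x - y q)‖ₑ ∂μ := by
      refine (enorm_integral_le_lintegral_enorm _).trans (le_of_eq ?_)
      refine lintegral_congr_ae ?_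
      filter_upwards [hkae] with q hq
      rw [enorm_mul, ← hq]
    exact (ENNReal.rpow_le_rpow h2 hp0.le).trans (jensen μ k hk (fun q => g (x - y q))
      (hgm.comp (measurable_const.sub hy)) hp)
  refine (lintegral_mono h1).trans ?_
  have hm2 : Measurable (fun z : E d × Ω => k z.2 * ‖g (z.1 - y z.2)‖ₑ ^ p) :=
    (hk.comp measurable_snd).mul (hG.enorm.pow_const p)
  have hm3 : Measurable (fun x : E d => ∫⁻ q, k q * ‖g (x - y q)‖ₑ ^ p ∂μ) :=
    hm2.lintegral_prod_right'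
  rw [lintegral_const_mul _ hm3, lintegral_lintegral_swap hm2.aemeasurable]
  have h5 : ∀ q, ∫⁻ x : E d, k q * ‖g (x - y q)‖ₑ ^ p = k q * ∫⁻ x : E d, ‖g x‖ₑ ^ p := by
    intro q
    have h7 : Measurable (fun x : E d => ‖g (x - y q)‖ₑ ^ p) :=
      (hgm.comp (measurable_id.sub measurable_const)).enorm.pow_const p
    rw [lintegral_const_mul _ h7, lintegral_sub_right_eq_self (fun x : E d => ‖g x‖ₑ ^ p) (y q)]
  simp only [h5]
  rw [lintegral_mul_const _ hk, hA, ← mul_assoc]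
  refine le_of_eq ?_
  congr 1
  have h6 := ENNReal.rpow_add_of_nonneg (x := ∫⁻ q, k q ∂μ) (p - 1) 1 (by linarith) zero_le_one
  rw [ENNReal.rpow_one, sub_add_cancel] at h6
  exact h6.symm

end Pool.Agent.N558.LS
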