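import Pool.Agent.N356.SP.Defs

set_option autoImplicit false

/-! The weights `th` on pairs of classes satisfy `GoodC`. -/

namespace Pool.Agent.N558.LS

open Finset Pool.Agent.N356.SP

section
variable {Γ : Type*} [AddCommGroup Γ]

def Ok (s : Γ) : Prop := ∀ k : ℕ, 0 < k → k ≤ 8 → k • s ≠ 0

lemma ok8 {s : Γ} (h : Ok s) : (1:ℕ) • s ≠ 0 ∧ (2:ℕ) • s ≠ 0 ∧ (3:ℕ) • s ≠ 0 ∧ (4:ℕ) • s ≠ 0 ∧ (5:ℕ) • s ≠ 0 ∧ (6:ℕ) • s ≠ 0 ∧
    (7:ℕ) • s ≠ 0 ∧ (8:ℕ) • s ≠ 0 := by
  refine ⟨?_, ?_, ?_, ?_, ?_, ?_, ?_, ?_⟩ <;> exact h _ (by norm_num) (by norm_num)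

lemma Ok.neg {s : Γ} (h : Ok s) : Ok (-s) := by
  intro k hk hk8 h0
  exact h k hk hk8 (by simpa using h0)

lemma th_E {s t : Γ} (h : t = s ∨ t = -s) : th s t = 0 := by
  unfold th
  rw [if_pos h]

lemma th_S {s t : Γ} (hs : Ok s) (h : t = -(s + s)) : th s t = 3 / 2 := by
  obtain ⟨h1, h2, h3, h4, h5, h6, h7, h8⟩ := ok8 hs
  unfold th
  rw [if_neg (by grind), if_pos (Or.inl h)]

lemma th_D {s t : Γ} (hs : Ok s) (h : t = s + s) : th s t = 3 / 4 := by
  obtain ⟨h1, h2, h3, h4, h5, h6, h7, h8⟩ := ok8 hs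
  unfold th
  rw [if_neg (by grind), if_neg (by grind), if_pos (Or.inl h)]

lemma th_T1 {s t : Γ} (hs : Ok s) (h : t = -(s + s + s)) : th s t = 9 / 8 := by
  obtain ⟨h1, h2, h3, h4, h5, h6, h7, h8⟩ := ok8 hs
  unfold th
  rw [if_neg (by grind), if_neg (by grind), if_neg (by grind), if_pos (Or.inl h)]

lemma th_symm (s t : Γ) : th t s = th s t := by
  unfold th
  have e1 : (s = t ∨ s = -t) ↔ (t = s ∨ t = -s) := by
    constructor <;> (rintro (h | h)) <;> grind
  have e2 : (s = -(t + t) ∨ t = -(s + s)) ↔ (t = -(s + s) ∨ s = -(t + t)) := by tauto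
  have e3 : (s = t + t ∨ t = s + s) ↔ (t = s + s ∨ s = t + t) := by tauto
  have e4 : (s = -(t + t + t) ∨ t = -(s + s + s) ∨ s + s = -(t + t + t) ∨ t + t = -(s + s + s)) ↔
      (t = -(s + s + s) ∨ s = -(t + t + t) ∨ t + t = -(s + s + s) ∨ s + s = -(t + t + t)) :=
    ⟨fun h => h.elim (fun a => Or.inr (Or.inl a)) fun h => h.elim Or.inl fun h =>
      h.elim (fun a => Or.inr (Or.inr (Or.inr a))) fun a => Or.inr (Or.inr (Or.inl a)),
     fun h => h.elim (fun a => Or.inr (Or.inl a)) fun h => h.elim Or.inl fun h =>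
      h.elim (fun a => Or.inr (Or.inr (Or.inr a))) fun a => Or.inr (Or.inr (Or.inl a))⟩
  classical exact if_congr e1 rfl (if_congr e2 rfl (if_congr e3 rfl (if_congr e4 rfl rfl)))

lemma th_even (s t : Γ) : th (-s) (-t) = th s t := by
  unfold th
  have e1 : (-t = -s ∨ -t = - -s) ↔ (t = s ∨ t = -s) := by
    constructor <;> (rintro (h | h)) <;> grind
  have e2 : (-t = -(-s + -s) ∨ -s = -(-t + -t)) ↔ (t = -(s + s) ∨ s = -(t + t)) := by
    constructor <;> (rintro (h | h)) <;> grind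
  have e3 : (-t = -s + -s ∨ -s = -t + -t) ↔ (t = s + s ∨ s = t + t) := by
    constructor <;> (rintro (h | h)) <;> grind
  have e4 : (-t = -(-s + -s + -s) ∨ -s = -(-t + -t + -t) ∨ -t + -t = -(-s + -s + -s) ∨
      -s + -s = -(-t + -t + -t)) ↔
      (t = -(s + s + s) ∨ s = -(t + t + t) ∨ t + t = -(s + s + s) ∨ s + s = -(t + t + t)) := by
    constructor <;> (rintro (h | h | h | h)) <;> grind
  classical exact if_congr e1 rfl (if_congr e2 rfl (if_congr e3 rfl (if_congr e4 rfl rfl)))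

lemma th_nn (s t : Γ) : (0:ℝ) ≤ th s t := by
  unfold th
  split_ifs <;> norm_num

lemma th_le (s t : Γ) : (th s t : ℝ) ≤ 3 / 2 := by
  unfold th
  split_ifs <;> norm_num

lemma th_le' {s t : Γ} (h : ¬ (t = -(s + s) ∨ s = -(t + t))) : (th s t : ℝ) ≤ 9 / 8 := by
  unfold th
  split_ifs <;> norm_num

lemma th_T3 {s t : Γ} (hs : Ok s) (h : t + t = -(s + s + s)) : th s t = 9 / 8 := by
  obtain ⟨h1, h2, h3, h4, h5, h6, h7, h8⟩ := ok8 hs
  unfold th
  rw [if_neg (by grind), if_neg (by grind), if_neg (by grind), if_pos (Or.inr (Or.inr (Or.inl h)))]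

lemma th_D' {s t : Γ} (ht : Ok t) (h : s = t + t) : th s t = 3 / 4 := by
  rw [th_symm t s]; exact th_D ht h

lemma th_S' {s t : Γ} (ht : Ok t) (h : s = -(t + t)) : th s t = 3 / 2 := by
  rw [th_symm t s]; exact th_S ht h

lemma th_T1' {s t : Γ} (ht : Ok t) (h : s = -(t + t + t)) : th s t = 9 / 8 := by
  rw [th_symm t s]; exact th_T1 ht h

lemma th_T3' {s t : Γ} (ht : Ok t) (h : s + s = -(t + t + t)) : th s t = 9 / 8 := by
  rw [th_symm t s]; exact th_T3 ht h

/-- two equal classes in a zero sum triple -/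
lemma tri_eq {s r : Γ} (hs : Ok s) (h : r = -(s + s)) : (th r s + th s s + th s r : ℝ) = 3 := by
  rw [th_E (Or.inl rfl), th_S hs h, th_S' hs h]; norm_num

/-- a double in a zero sum triple -/
lemma tri_D {r s t : Γ} (hs : Ok s) (ht : Ok t) (h : t = s + s) (h0 : r + s + t = 0) :
    (th r s : ℝ) = 9 / 8 ∧ (th s t : ℝ) = 3 / 4 ∧ (th t r : ℝ) = 9 / 8 := by
  have hr : r = -(s + s + s) := by grind
  refine ⟨th_T1' hs hr, th_D hs h, th_T3 ht (by grind)⟩

/-- the value `1` -/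
lemma th_one {s t : Γ} (h1 : ¬ (t = s ∨ t = -s)) (h2 : ¬ (t = -(s + s) ∨ s = -(t + t)))
    (h3 : ¬ (t = s + s ∨ s = t + t))
    (h4 : ¬ (t = -(s + s + s) ∨ s = -(t + t + t) ∨ t + t = -(s + s + s) ∨ s + s = -(t + t + t))) :
    (th s t : ℝ) = 1 := by
  unfold th
  rw [if_neg h1, if_neg h2, if_neg h3, if_neg h4]

lemma th_tri {r s t : Γ} (hr : Ok r) (hs : Ok s) (ht : Ok t) (h0 : r + s + t = 0) :
    (th r s + th s t + th t r : ℝ) = 3 := by
  by_cases e1 : s = t
  · subst e1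
    exact tri_eq hs (by grind)
  by_cases e2 : r = s
  · subst e2
    have := tri_eq (s := r) (r := t) hr (by grind)
    linarith
  by_cases e3 : t = r
  · subst e3
    have := tri_eq (s := t) (r := s) ht (by grind)
    linarith
  by_cases d1 : t = s + s
  · obtain ⟨a, b, c⟩ := tri_D hs ht d1 h0
    rw [a, b, c]; norm_num
  by_cases d2 : s = t + t
  · obtain ⟨a, b, c⟩ := tri_D (r := r) ht hs d2 (by grind)
    rw [th_symm s r, th_symm t s, th_symm r t, a, b, c]; norm_num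
  by_cases d3 : s = r + r
  · obtain ⟨a, b, c⟩ := tri_D (r := t) hr hs d3 (by grind)
    rw [a, b, c]; norm_num
  by_cases d4 : r = s + s
  · obtain ⟨a, b, c⟩ := tri_D (r := t) hs hr d4 (by grind)
    rw [th_symm s r, th_symm t s, th_symm r t, a, b, c]; norm_num
  by_cases d5 : t = r + r
  · obtain ⟨a, b, c⟩ := tri_D (r := s) hr ht d5 (by grind)
    rw [th_symm s r, th_symm t s, th_symm r t, a, b, c]; norm_num
  by_cases d6 : r = t + t
  · obtain ⟨a, b, c⟩ := tri_D (r := s) ht hr d6 (by grind)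
    rw [a, b, c]; norm_num
  have hr1 : r ≠ 0 := by simpa using hr 1 (by norm_num) (by norm_num)
  have hs1 : s ≠ 0 := by simpa using hs 1 (by norm_num) (by norm_num)
  have ht1 : t ≠ 0 := by simpa using ht 1 (by norm_num) (by norm_num)
  have a1 : (th r s : ℝ) = 1 := th_one (by grind) (by grind) (by grind) (by grind)
  have a2 : (th s t : ℝ) = 1 := th_one (by grind) (by grind) (by grind) (by grind)
  have a3 : (th t r : ℝ) = 1 := th_one (by grind) (by grind) (by grind) (by grind)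
  rw [a1, a2, a3]; norm_num

lemma th_sq {s t : Γ} (hs : Ok s) (ht : Ok t) :
    (th s t ^ 2 + th s (-t) ^ 2 : ℝ) ≤ 45 / 16 := by
  by_cases c1 : t = -(s + s) ∨ s = -(t + t)
  · rcases c1 with c | c
    · rw [th_S hs c, th_D hs (by grind : -t = s + s)]; norm_num
    · rw [th_S' ht c, th_D' ht.neg (by grind : s = -t + -t)]; norm_num
  by_cases c2 : -t = -(s + s) ∨ s = -(-t + -t)
  · rcases c2 with c | c
    · rw [th_S hs c, th_D hs (by grind : t = s + s)]; norm_num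
    · rw [th_S' ht.neg c, th_D' ht (by grind : s = t + t)]; norm_num
  have h1 := th_le' c1
  have h2 := th_le' c2
  nlinarith [th_nn s t, th_nn s (-t)]

lemma th_quad {s t u v : Γ} (h0 : s + t + u + v = 0) (h2 : s ≠ -u) (h3 : s ≠ -v) : (th s t * th u v : ℝ) ≤ 27 / 16 := by
  by_cases c1 : t = -(s + s) ∨ s = -(t + t)
  · have c2 : ¬ (v = -(u + u) ∨ u = -(v + v)) := by
      rintro (c2 | c2) <;> rcases c1 with c1 | c1 <;> grind
    have b1 := th_le s t
    have b2 := th_le' c2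
    have := th_nn s t
    have := th_nn u v
    calc (th s t * th u v : ℝ) ≤ (3 / 2) * (9 / 8) := by gcongr
      _ = 27 / 16 := by norm_num
  · have b1 := th_le' c1
    have b2 := th_le u v
    have := th_nn s t
    have := th_nn u v
    calc (th s t * th u v : ℝ) ≤ (9 / 8) * (3 / 2) := by gcongr
      _ = 27 / 16 := by norm_num

end

theorem good_th {Γ : Type*} [AddCommGroup Γ] {C : Finset Γ} (hneg : ∀ s ∈ C, -s ∈ C)
    (h8 : ∀ s ∈ C, ∀ k : ℕ, 0 < k → k ≤ 8 → k • s ≠ 0) (h2 : ∀ x : Γ, x = -x → x = 0) :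
    GoodC C (th : Γ → Γ → ℝ) where
  neg := hneg
  ne := by
    intro s hs h
    refine h8 s hs 2 (by norm_num) (by norm_num) ?_
    rw [two_nsmul]
    exact eq_neg_iff_add_eq_zero.mp h
  nn := th_nn
  symm := th_symm
  even := th_even
  self := fun s => th_E (Or.inl rfl)
  anti := fun s => th_E (Or.inr rfl)
  tri := fun r hr s hs t ht h0 => th_tri (h8 r hr) (h8 s hs) (h8 t ht) h0
  sq := fun s hs t ht _ _ => th_sq (h8 s hs) (h8 t ht)
  quad := fun s _ t _ u _ v _ h0 _ b c _ _ _ => th_quad h0 b c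
  two := fun s _ t _ h => h2 _ h

end Pool.Agent.N558.LS
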